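import Mathlib
import Pool.Agent.K1H83.BD.Free

/-!
# The weak relative conjecture for products of `𝔾ₘ` and elliptic curves, in bounded degree

`Λ c`, `c = 1, …, q`, are pairs of periods `ω₁, ω₂` (independent over `ℝ`), with the lattices
`Ω_c = (Λ c).lattice = ℤ ω₁ + ℤ ω₂` and the elliptic curves `E_c = ℂ / Ω_c`, which are supposed to
be pairwise non-isogenous; `℘[L]`, `L.g₂`, `L.g₃` are Mathlib's Weierstrass function and invariants
of `L = Λ c`.

For `G = 𝔾ₘ^m × ∏_j E_(ty j)`, `j ≤ n`, with `g₂, g₃` algebraic, the point `r` of the Lie algebra is a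
tuple `x` of `m` numbers together with a tuple `p` of `n` numbers, and the components of `exp_G r`
generate the same field, up to algebraic numbers, as the `e^x` and the `℘(p)`. The connected algebraic
subgroups `H` of `G` of codimension one are given by an equation `∑ aᵢ xᵢ = 0` with rational
coefficients, or by an equation `∑ aⱼ pⱼ = 0` between the `pⱼ` which belong to one curve `E_c`, with
coefficients in `k_c = ℚ ⊗ End(E_c)`. The number `∑ aᵢ (xᵢ - sᵢ)`, or `∑ aⱼ (pⱼ - sⱼ)`, is a logarithm
of an algebraic point if and only if the point `exp_G (r - s)` is contained in an algebraic translate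
`y + H`, `y ∈ G(ℚ̄)`, i.e. `d(exp_G(r - s)) < dim G` for this reason.

The theorem: let `V` be a rational vector space of finite dimension in `ℂ` and let a degree `δ` and
constants `w₁, …, w_t` (for instance the periods of `G`) be given. There are finitely many pairs
`(H, s)` of a subgroup `H` as above and a tuple `s` in `V` such that for all `r` in `V^(m + n)` the
following is true: `exp_G(r - s)` is contained in an algebraic translate of `H` for one of the pairs
`(H, s)`, or all relations of degree at most `δ` between `w`, the components of `r` and the components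
of `exp_G r` are identities in the latter; so the inequality of the problem is true for `r` in
degree `δ`, even over the field generated by `w` and `r`. Also the quasi-logarithms `ζ(p)` are
allowed in these relations. Instead of the field of algebraic numbers any subfield `K` of `ℂ` is
allowed, for instance the field `F` of the problem.

The proof: if there are sequences of tuples which escape all such families, then an ultraproduct of
the relations gives an algebraic relation over an internal field. The logarithmic forms of `𝔾ₘ`, of the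
elliptic curves and of their universal vector extensions (the theory of Ax, in the form of
differential forms) show that some combination of the tuples is constant modulo logarithms of
algebraic points.
-/

set_option autoImplicit false

open scoped PeriodPair

namespace Pool.Agent.K1H83.Reserve.BoundedDegreeTranslates

/-- The Weierstrass zeta function `ζ(z) = ∑ (1/(z-l) + 1/l + z/l²)`, the sum over the lattice (the
summand of `l = 0` is `1/z`, since `1/0 = 0` in Lean). -/
noncomputable def ζ (L : PeriodPair) (z : ℂ) : ℂ :=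
  ∑' l : L.lattice, (1 / (z - l) + 1 / l + z / l ^ 2)

/-- the field `k = ℚ ⊗ End(ℂ / Ω)` as a subfield of `ℂ`; see `mem_k` -/
noncomputable abbrev k (L : PeriodPair) : IntermediateField ℚ ℂ := Pool.Agent.TH813.Ell.kL L

/-- `k` consists of the numbers `c` such that `n c` maps the lattice to itself for some `n > 0` -/
theorem mem_k {L : PeriodPair} {c : ℂ} :
    c ∈ k L ↔ ∃ n : ℕ, 0 < n ∧ ∀ w ∈ L.lattice, (n * c) * w ∈ L.lattice := Iff.rfl

/-- `v` is a logarithm of a number which is algebraic over the field `K` -/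
def IsLog (K : IntermediateField ℚ ℂ) (v : ℂ) : Prop := IsAlgebraic K (Complex.exp v)

/-- `v` is an elliptic logarithm of a point whose coordinates are algebraic over the field `K` -/
def IsEllipticLog (L : PeriodPair) (K : IntermediateField ℚ ℂ) (v : ℂ) : Prop :=
  v ∈ L.lattice ∨ IsAlgebraic K (℘[L] v)

/-- The curves `ℂ / Ω_c` are pairwise non-isogenous: there is no nonzero homomorphism from one to
another. -/
def NonIsog {q : ℕ} (Λ : Fin q → PeriodPair) : Prop :=
  ∀ c c', c ≠ c' → ∀ α : ℂ, (∀ w ∈ (Λ c).lattice, α * w ∈ (Λ c').lattice) → α = 0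

/-- Every relation of degree at most `δ`, with coefficients algebraic over `K`, between the constants
`w`, the numbers `x` and `p`, and the numbers `e^x`, `℘(p)`, `ζ(p)` (where `p_j` belongs to the lattice
number `ty j`), is an identity in the numbers `e^x`, `℘(p)`, `ζ(p)`: it stays true if these are
replaced by arbitrary numbers. -/
def Free {q : ℕ} (Λ : Fin q → PeriodPair) (K : IntermediateField ℚ ℂ) (δ : ℕ) {t m n : ℕ}
    (ty : Fin n → Fin q) (w : Fin t → ℂ) (x : Fin m → ℂ) (p : Fin n → ℂ) : Prop :=
  ∀ P : MvPolynomial ((Fin t ⊕ (Fin m ⊕ Fin n)) ⊕ (Fin m ⊕ (Fin n ⊕ Fin n))) ℂ,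
    P.totalDegree ≤ δ → (∀ μ, IsAlgebraic K (P.coeff μ)) →
    MvPolynomial.eval (Sum.elim (Sum.elim w (Sum.elim x p)) (Sum.elim (fun i => Complex.exp (x i))
      (Sum.elim (fun j => ℘[Λ (ty j)] (p j)) (fun j => ζ (Λ (ty j)) (p j))))) P = 0 →
    ∀ y : Fin m ⊕ (Fin n ⊕ Fin n) → ℂ,
      MvPolynomial.eval (Sum.elim (Sum.elim w (Sum.elim x p)) y) P = 0

open Pool.Agent.K1H83.BD in
/-- Let `Λ c` be the lattices of pairwise non-isogenous elliptic curves `E_c`, `K` a subfield of
`ℂ` over which all `g₂` and `g₃` are algebraic, `V` a rational subspace of `ℂ` of finite dimension,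
`w₁, …, w_t` complex numbers, `m`, `n`, `δ` natural numbers, and let a curve `E_(ty j)` be assigned to
every `j ≤ n`. There are finitely many pairs `(a, s)`, `0 ≠ a ∈ ℚ^m`, `s ∈ V^m`, and for every `c`
finitely many pairs `(a, s)`, `0 ≠ a ∈ k_c^n`, `aⱼ = 0` for `ty j ≠ c`, `s ∈ V^n`, such that for all
`x ∈ V^m`, `p ∈ V^n` (`pⱼ` not in the lattice of `E_(ty j)`), for which no number `∑ aᵢ (xᵢ - sᵢ)` is
a logarithm of a number algebraic over `K` and no number `∑ aⱼ (pⱼ - sⱼ)` is an elliptic logarithm of a
point of `E_c` algebraic over `K`: every relation of degree at most `δ`, with coefficients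
algebraic over `K`, between the numbers `w, x, p, e^x, ℘(p), ζ(p)` is an identity in the numbers
`e^x, ℘(p), ζ(p)`. -/
theorem result {q : ℕ} (Λ : Fin q → PeriodPair) (hΛ : NonIsog Λ) (K : IntermediateField ℚ ℂ)
    (h2 : ∀ c, IsAlgebraic K (Λ c).g₂) (h3 : ∀ c, IsAlgebraic K (Λ c).g₃) (V : Submodule ℚ ℂ)
    (hV : FiniteDimensional ℚ V) (m n : ℕ) (ty : Fin n → Fin q) (t δ : ℕ) (w : Fin t → ℂ) :
    ∃ (S : Finset ((Fin m → ℚ) × (Fin m → ℂ))) (S' : Fin q → Finset ((Fin n → ℂ) × (Fin n → ℂ))),
      (∀ s ∈ S, s.1 ≠ 0 ∧ ∀ i, s.2 i ∈ V) ∧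
      (∀ c, ∀ s ∈ S' c, s.1 ≠ 0 ∧ (∀ j, s.1 j ∈ k (Λ c)) ∧ (∀ j, ty j ≠ c → s.1 j = 0) ∧
        ∀ j, s.2 j ∈ V) ∧
      ∀ (x : Fin m → ℂ) (p : Fin n → ℂ), (∀ i, x i ∈ V) → (∀ j, p j ∈ V) →
        (∀ j, p j ∉ (Λ (ty j)).lattice) →
        (∀ s ∈ S, ¬ IsLog K (∑ i, (s.1 i : ℂ) * (x i - s.2 i))) →
        (∀ c, ∀ s ∈ S' c, ¬ IsEllipticLog (Λ c) K (∑ j, s.1 j * (p j - s.2 j))) →
        Free Λ K δ ty w x p := by
  obtain ⟨S, S', hS, hS', hm⟩ := main_free K Λ h2 h3
    (fun c c' hc α hα => hΛ c c' hc α hα) V w δ (m := m) ty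
  refine ⟨S, S', hS, hS', fun x p hx hp hl h4 h5 P hP hPK h0 y => ?_⟩
  have hz : ∀ j, Pool.Agent.W245.EB.zt (Λ (ty j)) (p j) = ζ (Λ (ty j)) (p j) := fun j =>
    Pool.Agent.W245.EB.zt_of_notMem (hl j)
  rcases hm x p hx hp hl with ⟨s, hs, h⟩ | ⟨c, s, hs, h⟩ | h
  · exact absurd h (h4 s hs)
  · exact absurd h (h5 c s hs)
  · refine h P hP hPK ?_ y
    refine Eq.trans ?_ h0
    congr 2
    funext i
    rcases i with i | (i | (i | i))
    · rfl
    · rfl
    · rfl
    · exact hz i

end Pool.Agent.K1H83.Reserve.BoundedDegreeTranslates
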