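import Mathlib
import Pool.Agent.K1H83.BD.Free

/-!
# The elliptico-toric conjecture in bounded degree

`L` is a pair of periods `ω₁, ω₂` (independent over `ℝ`), `L.lattice = ℤ ω₁ + ℤ ω₂ = Ω`, and
`℘[L]`, `L.g₂`, `L.g₃` are Mathlib's Weierstrass function and invariants.

The theorem: let `V` be a rational vector space of finite dimension in `ℂ` and let a degree `δ` and
constants `w₁, …, w_t` (for instance the periods and quasi-periods `ω₁, ω₂, η₁, η₂`) be given. For all
numbers `x₁, …, x_m` (the `t_l` of the problem) and `p₁, …, pₙ` in `V` outside finitely many families of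
a simple shape, all relations of degree at most `δ`, with coefficients algebraic over `ℚ(g₂, g₃)`,
between the numbers `w`, `x`, `p` and the `m + 2 n` numbers `e^x`, `℘(p)`, `ζ(p)` are identities in the
latter. So the part `dim ⟨x⟩ + 2 dim ⟨p⟩ ≤ m + 2 n` of the bound of the problem is true in degree `δ`,
relative to `w`, `x` and `p`. The exceptional families consist, modulo logarithms of algebraic points,
of finitely many translates of proper subspaces.

The proof: if there are sequences of tuples which escape all such families, then an ultraproduct of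
the relations gives an algebraic relation over an internal field. The logarithmic forms of `𝔾ₘ`, of the
elliptic curves and of their universal vector extensions (the theory of Ax, in the form of
differential forms) show that some combination of the tuples is constant modulo logarithms of
algebraic points.
-/

set_option autoImplicit false

open scoped PeriodPair

namespace Pool.Agent.K1H83.Reserve.MP_8da9ea_nt_BoundedDegreeRelations

/-- The Weierstrass zeta function `ζ(z) = ∑ (1/(z-l) + 1/l + z/l²)`, the sum over the lattice (the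
summand of `l = 0` is `1/z`, since `1/0 = 0` in Lean). -/
noncomputable def ζ (L : PeriodPair) (z : ℂ) : ℂ :=
  ∑' l : L.lattice, (1 / (z - l) + 1 / l + z / l ^ 2)

/-- the field `k = ℚ ⊗ End(ℂ / Ω)` as a subfield of `ℂ`; see `mem_k` -/
noncomputable abbrev k (L : PeriodPair) : IntermediateField ℚ ℂ := Pool.Agent.TH813.Ell.kL L

/-- `k` consists of the numbers `c` such that `n c` maps the lattice to itself for some `n > 0` -/
theorem mem_k {L : PeriodPair} {c : ℂ} :
    c ∈ k L ↔ ∃ n : ℕ, 0 < n ∧ ∀ w ∈ L.lattice, (n * c) * w ∈ L.lattice := Iff.rfl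

/-- `v` is a logarithm of a number which is algebraic over the field `K` -/
def IsLog (K : IntermediateField ℚ ℂ) (v : ℂ) : Prop := IsAlgebraic K (Complex.exp v)

/-- `v` is an elliptic logarithm of a point whose coordinates are algebraic over the field `K` -/
def IsEllipticLog (L : PeriodPair) (K : IntermediateField ℚ ℂ) (v : ℂ) : Prop :=
  v ∈ L.lattice ∨ IsAlgebraic K (℘[L] v)

/-- Every relation of degree at most `δ`, with coefficients algebraic over `K`, between the constants
`w`, the numbers `x` and `p`, and the numbers `e^x`, `℘(p)`, `ζ(p)` is an identity in the numbers `e^x`,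
`℘(p)`, `ζ(p)`: it stays true if these are replaced by arbitrary numbers. -/
def Free (L : PeriodPair) (K : IntermediateField ℚ ℂ) (δ : ℕ) {t m n : ℕ}
    (w : Fin t → ℂ) (x : Fin m → ℂ) (p : Fin n → ℂ) : Prop :=
  ∀ P : MvPolynomial ((Fin t ⊕ (Fin m ⊕ Fin n)) ⊕ (Fin m ⊕ (Fin n ⊕ Fin n))) ℂ,
    P.totalDegree ≤ δ → (∀ μ, IsAlgebraic K (P.coeff μ)) →
    MvPolynomial.eval (Sum.elim (Sum.elim w (Sum.elim x p)) (Sum.elim (fun i => Complex.exp (x i))
      (Sum.elim (fun j => ℘[L] (p j)) (fun j => ζ L (p j))))) P = 0 →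
    ∀ y : Fin m ⊕ (Fin n ⊕ Fin n) → ℂ,
      MvPolynomial.eval (Sum.elim (Sum.elim w (Sum.elim x p)) y) P = 0

open Pool.Agent.K1H83.BD in
/-- Let `Ω` be a lattice, `K` a subfield of `ℂ` such that `g₂` and `g₃` are algebraic over `K`,
`V` a rational subspace of `ℂ` of finite dimension, `w₁, …, w_t` complex numbers, and `m`, `n`, `δ`
natural numbers. There are finitely many pairs `(a, s)`, `0 ≠ a ∈ ℚ^m`, `s ∈ V^m`, and finitely many
pairs `(a, s)`, `0 ≠ a ∈ k^n`, `s ∈ V^n`, such that for all `x ∈ V^m`, `p ∈ V^n` (`pⱼ` not in `Ω`), for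
which no number `∑ aᵢ (xᵢ - sᵢ)` is a logarithm of a number algebraic over `K` and no number
`∑ aⱼ (pⱼ - sⱼ)` is an elliptic logarithm of a point algebraic over `K`: every relation of degree at
most `δ`, with coefficients algebraic over `K`, between the numbers `w, x, p, e^x, ℘(p), ζ(p)` is an
identity in the `m + 2 n` numbers `e^x, ℘(p), ζ(p)`. -/
theorem result (L : PeriodPair) (K : IntermediateField ℚ ℂ)
    (h2 : IsAlgebraic K L.g₂) (h3 : IsAlgebraic K L.g₃) (V : Submodule ℚ ℂ)
    (hV : FiniteDimensional ℚ V) (m n t δ : ℕ) (w : Fin t → ℂ) :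
    ∃ (S : Finset ((Fin m → ℚ) × (Fin m → ℂ))) (S' : Finset ((Fin n → ℂ) × (Fin n → ℂ))),
      (∀ s ∈ S, s.1 ≠ 0 ∧ ∀ i, s.2 i ∈ V) ∧
      (∀ s ∈ S', s.1 ≠ 0 ∧ (∀ j, s.1 j ∈ k L) ∧ ∀ j, s.2 j ∈ V) ∧
      ∀ (x : Fin m → ℂ) (p : Fin n → ℂ), (∀ i, x i ∈ V) → (∀ j, p j ∈ V) →
        (∀ j, p j ∉ L.lattice) →
        (∀ s ∈ S, ¬ IsLog K (∑ i, (s.1 i : ℂ) * (x i - s.2 i))) →
        (∀ s ∈ S', ¬ IsEllipticLog L K (∑ j, s.1 j * (p j - s.2 j))) →
        Free L K δ w x p := by
  obtain ⟨S, S', hS, hS', hm⟩ := main_free K (q := 1) (fun _ => L) (fun _ => h2) (fun _ => h3)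
    (fun c c' hc => absurd (Subsingleton.elim c c') hc) V w δ (m := m) (n := n) (fun _ => 0)
  refine ⟨S, S' 0, hS, fun s hs => ?_, fun x p hx hp hl h4 h5 P hP hPK h0 y => ?_⟩
  · obtain ⟨e1, e2, -, e4⟩ := hS' 0 s hs
    exact ⟨e1, e2, e4⟩
  have hz : ∀ j, Pool.Agent.W245.EB.zt L (p j) = ζ L (p j) := fun j =>
    Pool.Agent.W245.EB.zt_of_notMem (hl j)
  rcases hm x p hx hp hl with ⟨s, hs, h⟩ | ⟨c, s, hs, h⟩ | h
  · exact absurd h (h4 s hs)
  · rw [Subsingleton.elim c 0] at hs
    exact absurd h (h5 s hs)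
  · refine h P hP hPK ?_ y
    refine Eq.trans ?_ h0
    congr 2
    funext i
    rcases i with i | (i | (i | i))
    · rfl
    · rfl
    · rfl
    · exact hz i

end Pool.Agent.K1H83.Reserve.MP_8da9ea_nt_BoundedDegreeRelations
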